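import Pool.Agent.H13.LN.Targets

/-!
# FUL: splitting all blocks (helper68, board lnt_modules)
-/

set_option autoImplicit false

namespace Pool.Agent.H68.LNT

open Finset Pool.Agent.H59.LIN Pool.Agent.H13.LN

lemma vl_of {d : ℕ} {L L' : List (List ℕ)} (h : VL d L) (hne : L' ≠ [])
    (hinc : ∀ b ∈ L', b.Pairwise (· < ·)) (hcnt : ∀ k, L'.flatten.count k = L.flatten.count k) :
    VL d L' := ⟨hne, hinc, fun k => by rw [hcnt, h.cnt]⟩

/-- singletons -/
def sg (l : List ℕ) : List (List ℕ) := l.map (fun k => [k])

lemma sg_inc (l : List ℕ) : ∀ b ∈ sg l, b.Pairwise (· < ·) := by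
  intro b hb
  unfold sg at hb
  rw [List.mem_map] at hb
  obtain ⟨k, -, rfl⟩ := hb
  exact List.pairwise_singleton _ _

lemma sg_flatten (l : List ℕ) : (sg l).flatten = l := by
  unfold sg
  induction l with
  | nil => rfl
  | cons a l ih => rw [List.map_cons, List.flatten_cons, ih]; rfl

lemma sg_append (l l' : List ℕ) : sg (l ++ l') = sg l ++ sg l' := List.map_append

lemma claimA (hSPL : T_SPL) {B : Type} [AddCommGroup B] {d : ℕ} {H : List (List ℕ) → B}
    (hH : HI d H) (b : List ℕ) : ∀ L : List (List ℕ), VL d (b :: L) →
      H (b :: L) = H ([] :: (L ++ sg b)) := by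
  induction b with
  | nil =>
    intro L _
    show H ([] :: L) = H ([] :: (L ++ []))
    rw [List.append_nil]
  | cons x b ih =>
    intro L hL
    have h1 : H ([x] :: b :: L) = H (([x] ++ b) :: L) := hSPL B d H hH [x] b L hL
    have hb : (x :: b).Pairwise (· < ·) := hL.inc _ List.mem_cons_self
    have hb' : b.Pairwise (· < ·) := (List.pairwise_cons.1 hb).2
    have hLi : ∀ c ∈ L, c.Pairwise (· < ·) := fun c hc => hL.inc _ (List.mem_cons_of_mem _ hc)
    have hv1 : VL d ([x] :: b :: L) := by
      refine vl_of hL (by simp) ?_ ?_
      · intro c hc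
        rw [List.mem_cons, List.mem_cons] at hc
        rcases hc with rfl | rfl | hc
        · exact List.pairwise_singleton _ _
        · exact hb'
        · exact hLi c hc
      · intro k
        simp only [List.flatten_cons, List.count_append, List.count_cons, List.count_nil]
        omega
    have h2 : H ((b :: L) ++ [[x]]) = H ([x] :: b :: L) := hH.rot [x] (b :: L) hv1
    have hv2 : VL d (b :: (L ++ [[x]])) := by
      refine vl_of hL (by simp) ?_ ?_
      · intro c hc
        rw [List.mem_cons, List.mem_append, List.mem_singleton] at hc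
        rcases hc with rfl | hc | rfl
        · exact hb'
        · exact hLi c hc
        · exact List.pairwise_singleton _ _
      · intro k
        simp only [List.flatten_cons, List.flatten_append, List.flatten_nil, List.count_append,
          List.count_cons, List.count_nil]
        omega
    have h3 := ih (L ++ [[x]]) hv2
    have h4 : L ++ [[x]] ++ sg b = L ++ sg (x :: b) := by
      rw [List.append_assoc]
      rfl
    rw [h4] at h3
    rw [← h3, ← List.cons_append, h2, h1]
    rfl

lemma claimB (hSPL : T_SPL) {B : Type} [AddCommGroup B] {d : ℕ} {H : List (List ℕ) → B}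
    (hH : HI d H) (L : List (List ℕ)) : ∀ r : List ℕ, VL d (L ++ sg r) →
      H (L ++ sg r) = H ([] :: sg (r ++ L.flatten)) := by
  induction L with
  | nil =>
    intro r h
    rw [List.flatten_nil, List.append_nil]
    rw [List.nil_append] at h ⊢
    exact (hH.emp _ h).symm
  | cons b L ih =>
    intro r h
    have h1 := claimA hSPL hH b (L ++ sg r) h
    have h2 : (L ++ sg r) ++ sg b = L ++ sg (r ++ b) := by
      rw [sg_append, List.append_assoc]
    rw [h2] at h1
    rw [List.cons_append, h1, List.flatten_cons, ← List.append_assoc]
    by_cases hne : L ++ sg (r ++ b) = []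
    · have h3 : L = [] := (List.append_eq_nil_iff.1 hne).1
      rw [h3]
      simp
    · have hv : VL d (L ++ sg (r ++ b)) := by
        refine vl_of h hne ?_ ?_
        · intro c hc
          rw [List.mem_append] at hc
          rcases hc with hc | hc
          · exact h.inc c (List.mem_append_left _ (List.mem_cons_of_mem _ hc))
          · exact sg_inc _ c hc
        · intro k
          simp only [List.flatten_cons, List.flatten_append, sg_flatten, List.count_append]
          omega
      rw [hH.emp _ hv, ih (r ++ b) hv]

theorem ful (hSPL : T_SPL) : T_FUL := by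
  intro B _ d H hH L hL
  have h1 : VL d (L ++ sg []) := by
    have : L ++ sg [] = L := List.append_nil L
    rwa [this]
  have h2 := claimB hSPL hH L [] h1
  have h3 : L ++ sg [] = L := List.append_nil L
  rw [h3, List.nil_append] at h2
  exact h2

end Pool.Agent.H68.LNT
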